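import Pool.Agent.helper68.QZ.Spec
import Pool.Agent.helper44.DM.ZG

/-!
# Project qz, module LG: growth of the zeta function to the left of the line `θ`
-/

set_option autoImplicit false

namespace Pool.Agent.QZ

open N1f72dd46 Filter MeasureTheory Complex Metric Pool.Agent.helper6.LD
open scoped ComplexConjugate

lemma LG_gconj (s : ℂ) : Gammaℝ (conj s) = conj (Gammaℝ s) := by
  have h0 : (starRingEnd ℂ) 2 = 2 := Complex.conj_ofNat 2
  have h1 : -conj s / 2 = conj (-s / 2) := by rw [map_div₀, map_neg, h0]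
  have h2 : conj s / 2 = conj (s / 2) := by rw [map_div₀, h0]
  have h3 : (Real.pi : ℂ).arg ≠ Real.pi := by
    rw [Complex.arg_ofReal_of_nonneg Real.pi_pos.le]
    exact Real.pi_pos.ne
  rw [Gammaℝ_def, Gammaℝ_def, map_mul, ← Complex.Gamma_conj, h1, h2,
    Complex.cpow_conj _ _ h3, Complex.conj_ofReal]

/-- functional equation, in norm -/
lemma LG_fe (hGAM : Pool.Agent.WS.GAM_stmt) : ∃ C : ℝ, 1 ≤ C ∧ ∀ σ t : ℝ, 1 / 2 ≤ σ → σ < 1 →
    ‖riemannZeta (((1 - σ : ℝ) : ℂ) + t * I)‖ ≤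
      C * (2 + |t|) ^ (σ - 1 / 2) * ‖riemannZeta ((σ : ℂ) + t * I)‖ := by
  obtain ⟨C, hC, hG⟩ := hGAM
  refine ⟨C, hC, fun σ t h1 h2 => ?_⟩
  have e := hG (t * I) σ (by simp) h1 (by linarith)
  have hre : ((σ : ℂ) + t * I).re = σ := by simp
  have hs0 : (σ : ℂ) + t * I ≠ 0 := by
    intro h
    rw [h, Complex.zero_re] at hre
    linarith
  have hre1 : (1 - ((σ : ℂ) + t * I)).re = 1 - σ := by simp
  have hs1 : 1 - ((σ : ℂ) + t * I) ≠ 0 := by
    intro h
    rw [h, Complex.zero_re] at hre1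
    linarith
  have hz1 := riemannZeta_def_of_ne_zero hs0
  have hz2 := riemannZeta_def_of_ne_zero hs1
  rw [completedRiemannZeta_one_sub] at hz2
  have hg0 : Gammaℝ ((σ : ℂ) + t * I) ≠ 0 := Complex.Gammaℝ_ne_zero_of_re_pos (by rw [hre]; linarith)
  have hL : completedRiemannZeta ((σ : ℂ) + t * I) = riemannZeta ((σ : ℂ) + t * I) * Gammaℝ ((σ : ℂ) + t * I) := by
    rw [hz1, div_mul_cancel₀ _ hg0]
  have hc : ((1 - σ : ℝ) : ℂ) + t * I = conj (1 - ((σ : ℂ) + t * I)) := by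
    apply Complex.ext <;> simp
  have hc2 : (1 : ℂ) - σ + t * I = conj (1 - ((σ : ℂ) + t * I)) := by
    apply Complex.ext <;> simp
  have hg1 : ‖(Gammaℝ (1 - σ + t * I))⁻¹‖ = ‖(Gammaℝ (1 - ((σ : ℂ) + t * I)))⁻¹‖ := by
    rw [hc2, LG_gconj, norm_inv, norm_inv, Complex.norm_conj]
  rw [hg1] at e
  have hn : ‖riemannZeta (((1 - σ : ℝ) : ℂ) + t * I)‖ = ‖riemannZeta ((σ : ℂ) + t * I)‖ *
      (‖Gammaℝ ((σ : ℂ) + t * I)‖ * ‖(Gammaℝ (1 - ((σ : ℂ) + t * I)))⁻¹‖) := by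
    rw [hc, riemannZeta_conj, Complex.norm_conj, hz2, hL, norm_div, norm_mul, norm_inv]
    ring
  rw [hn, mul_comm]
  refine mul_le_mul_of_nonneg_right (e.trans ?_) (norm_nonneg _)
  refine mul_le_mul_of_nonneg_left ?_ (by linarith)
  refine Real.rpow_le_rpow (by positivity) ?_ (by linarith)
  have h3 : ‖(1 / 2 : ℂ) + t * I‖ ≤ 1 / 2 + |t| := by
    refine (norm_add_le _ _).trans ?_
    rw [norm_mul, Complex.norm_I, mul_one, Complex.norm_real, Real.norm_eq_abs]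
    norm_num
  linarith

/-- crude bound in a vertical strip not containing 1 -/
lemma LG_crude (a b : ℝ) (ha : 0 < a) (hb : b < 1) : ∃ C : ℝ, 0 < C ∧ ∀ s : ℂ, a ≤ s.re → s.re ≤ b →
    ‖riemannZeta s‖ ≤ C * (1 + |s.im|) ^ 3 := by
  obtain ⟨C1, hC1, h1⟩ := Pool.Agent.helper84.DM.zeta_poly
  have hcomp : IsCompact ((Set.Icc a b) ×ℂ (Set.Icc (-1 : ℝ) 1)) := isCompact_Icc.reProdIm isCompact_Icc
  obtain ⟨C2, h2⟩ := hcomp.exists_bound_of_continuousOn (f := riemannZeta) (by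
    intro s hs
    rw [Complex.mem_reProdIm] at hs
    refine (differentiableAt_riemannZeta ?_).continuousAt.continuousWithinAt
    intro h
    rw [h] at hs
    have := hs.1.2
    rw [Complex.one_re] at this
    linarith)
  refine ⟨max C1 C2, lt_max_of_lt_left hC1, fun s hs1 hs2 => ?_⟩
  have h0 : 0 ≤ |s.im| := abs_nonneg _
  rcases le_or_gt 1 |s.im| with h | h
  · refine (h1 s (by linarith) h).trans ?_
    refine mul_le_mul (le_max_left _ _) ?_ (by positivity) (le_trans hC1.le (le_max_left _ _))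
    exact pow_le_pow_left₀ h0 (by linarith) 3
  · have h3 : ‖riemannZeta s‖ ≤ C2 := by
      refine h2 s ?_
      rw [Complex.mem_reProdIm]
      exact ⟨⟨hs1, hs2⟩, abs_le.mp h.le⟩
    refine h3.trans ((le_max_right C1 C2).trans ?_)
    refine le_mul_of_one_le_right (le_trans hC1.le (le_max_left _ _)) ?_
    exact one_le_pow₀ (by linarith)

/-- a constant is at most a power -/
lemma LG_const (K e : ℝ) (he : 0 < e) : ∃ T0 : ℝ, 1 ≤ T0 ∧ ∀ t : ℝ, T0 ≤ t → K ≤ t ^ e := by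
  obtain ⟨T0, h⟩ := Filter.eventually_atTop.mp ((tendsto_rpow_atTop he).eventually_ge_atTop K)
  exact ⟨max T0 1, le_max_right _ _, fun t ht => h t ((le_max_left _ _).trans ht)⟩

theorem LG (hLL : LL_stmt) (hLT : LT_stmt) (hGA : GA_stmt) (hGAM : Pool.Agent.WS.GAM_stmt) : LG_stmt := by
  intro θ ε hθ hθ1 hZ hε
  obtain ⟨d, hd0, hd1, hd2⟩ : ∃ d : ℝ, 0 < d ∧ d ≤ ε / 4 ∧ θ + d < 1 := by
    refine ⟨min (ε / 4) ((1 - θ) / 2), lt_min (by linarith) (by linarith), min_le_left _ _, ?_⟩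
    have := min_le_right (ε / 4) ((1 - θ) / 2)
    linarith
  obtain ⟨T1, hT1, hL⟩ := hLL θ d (ε / 16) hθ.le hZ hd0 (by linarith)
  obtain ⟨C1, hC1, hF⟩ := LG_fe hGAM
  obtain ⟨C2, hC2, hCr⟩ := LG_crude (1 - (θ + d)) (θ + d) (by linarith) hd2
  obtain ⟨T2, hT2⟩ := hGA 3 1 C2 (by norm_num) (by norm_num) hC2
  obtain ⟨T3, hT31, hT3⟩ := LG_const (4 * C1) (ε / 8) (by linarith)
  obtain ⟨T4, hT41, hT4⟩ := LG_const (Real.exp 1) (ε / 8) (by linarith)
  set b : ℝ := θ + d with hb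
  refine ⟨max (max (2 * T1) T2) (max (max T3 T4) 2), le_trans (by norm_num) ((le_max_right _ _).trans (le_max_right _ _)), ?_⟩
  intro σ t0 hσ ht0
  have ht1 : 2 * T1 ≤ t0 := ((le_max_left _ _).trans (le_max_left _ _)).trans ht0
  have ht2 : T2 ≤ t0 := ((le_max_right _ _).trans (le_max_left _ _)).trans ht0
  have ht3 : T3 ≤ t0 := ((le_max_left _ _).trans ((le_max_left _ _).trans (le_max_right _ _))).trans ht0
  have ht4 : T4 ≤ t0 := ((le_max_right _ _).trans ((le_max_left _ _).trans (le_max_right _ _))).trans ht0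
  have ht5 : 2 ≤ t0 := ((le_max_right _ _).trans (le_max_right _ _)).trans ht0
  have ht6 : 1 ≤ t0 := by linarith
  have htp : 0 < t0 := by linarith
  have hm0 : 0 ≤ max (θ - σ) 0 := le_max_right _ _
  have hm1 : θ - σ ≤ max (θ - σ) 0 := le_max_left _ _
  rcases le_or_gt b σ with hbσ | hbσ
  · refine (hL σ t0 hbσ (by linarith)).2.trans ?_
    exact Real.rpow_le_rpow_of_exponent_le ht6 (by linarith)
  have hba : b - (1 - b) = 2 * b - 1 := by ring
  have hba0 : 0 < 2 * b - 1 := by linarith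
  have hexp1 : ∀ x : ℝ, 1 ≤ Real.exp (x ^ 2) := fun x => Real.one_le_exp (sq_nonneg x)
  -- near points on the right line
  have hnear : ∀ t : ℝ, |t - t0| < t0 / 4 → ‖riemannZeta ((b : ℂ) + t * I)‖ ≤ t0 ^ (ε / 8) := by
    intro t ht
    rw [abs_lt] at ht
    have hh := (hL b t le_rfl (by linarith)).2
    refine hh.trans ?_
    have h1 : t ≤ t0 ^ (2 : ℝ) := by
      have : t0 ^ (2 : ℝ) = t0 ^ 2 := by norm_cast
      rw [this]
      nlinarith
    have h2 : t0 ^ (ε / 8) = (t0 ^ (2 : ℝ)) ^ (ε / 16) := by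
      rw [← Real.rpow_mul htp.le]
      congr 1
      ring
    rw [h2]
    exact Real.rpow_le_rpow (by linarith) h1 (by linarith)
  -- far points
  have hfar : ∀ (s : ℂ), 1 - b ≤ s.re → s.re ≤ b → t0 / 4 ≤ |s.im - t0| →
      ‖riemannZeta s‖ ≤ Real.exp ((s.im - t0) ^ 2) := by
    intro s h1 h2 h3
    have h4 := hCr s h1 h2
    have h5 := hT2 t0 s.im ht2 h3
    have h6 : t0 ^ (-1 : ℝ) ≤ 1 := Real.rpow_le_one_of_one_le_of_nonpos ht6 (by norm_num)
    have h7 : (1 : ℝ) ≤ t0 ^ (3 : ℝ) := Real.one_le_rpow ht6 (by norm_num)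
    have h8 : (1 + |s.im|) ^ (3 : ℝ) = (1 + |s.im|) ^ 3 := by norm_cast
    rw [h8] at h5
    have h9 : 0 ≤ (1 + |s.im|) ^ 3 := by positivity
    calc ‖riemannZeta s‖ ≤ C2 * (1 + |s.im|) ^ 3 := h4
      _ ≤ C2 * t0 ^ (3 : ℝ) * (1 + |s.im|) ^ 3 := by
          refine mul_le_mul_of_nonneg_right ?_ h9
          exact le_mul_of_one_le_right hC2.le h7
      _ ≤ t0 ^ (-1 : ℝ) * Real.exp ((s.im - t0) ^ 2) := h5
      _ ≤ 1 * Real.exp ((s.im - t0) ^ 2) := mul_le_mul_of_nonneg_right h6 (Real.exp_pos _).le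
      _ = Real.exp ((s.im - t0) ^ 2) := one_mul _
  have hMb : ∀ t : ℝ, ‖riemannZeta ((b : ℂ) + t * I)‖ ≤ t0 ^ (ε / 8) * Real.exp ((t - t0) ^ 2) := by
    intro t
    rcases lt_or_ge |t - t0| (t0 / 4) with h | h
    · refine (hnear t h).trans ?_
      exact le_mul_of_one_le_right (Real.rpow_nonneg htp.le _) (hexp1 _)
    · have h1 := hfar ((b : ℂ) + t * I) (by simp; linarith) (by simp) (by simpa using h)
      have h2 : ((b : ℂ) + t * I).im = t := by simp
      rw [h2] at h1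
      refine h1.trans ?_
      exact le_mul_of_one_le_left (Real.exp_pos _).le (Real.one_le_rpow ht6 (by linarith))
  have hMa : ∀ t : ℝ, ‖riemannZeta (((1 - b : ℝ) : ℂ) + t * I)‖ ≤
      t0 ^ (b - 1 / 2 + ε / 4) * Real.exp ((t - t0) ^ 2) := by
    intro t
    rcases lt_or_ge |t - t0| (t0 / 4) with h | h
    · have h1 := hF b t (by linarith) hd2
      have h2 := hnear t h
      have h3 : (2 + |t|) ^ (b - 1 / 2) ≤ 4 * t0 ^ (b - 1 / 2) := by
        have h4 : 2 + |t| ≤ 4 * t0 := by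
          rw [abs_lt] at h
          rw [abs_of_pos (by linarith)]
          linarith
        calc (2 + |t|) ^ (b - 1 / 2) ≤ (4 * t0) ^ (b - 1 / 2) :=
              Real.rpow_le_rpow (by positivity) h4 (by linarith)
          _ = 4 ^ (b - 1 / 2) * t0 ^ (b - 1 / 2) := Real.mul_rpow (by norm_num) htp.le
          _ ≤ 4 * t0 ^ (b - 1 / 2) := by
              refine mul_le_mul_of_nonneg_right ?_ (Real.rpow_nonneg htp.le _)
              calc (4 : ℝ) ^ (b - 1 / 2) ≤ 4 ^ (1 : ℝ) :=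
                    Real.rpow_le_rpow_of_exponent_le (by norm_num) (by linarith)
                _ = 4 := Real.rpow_one 4
      have h5 : 0 ≤ t0 ^ (b - 1 / 2) := Real.rpow_nonneg htp.le _
      have h6 := hT3 t0 ht3
      have h7 : 0 ≤ t0 ^ (ε / 8) := Real.rpow_nonneg htp.le _
      calc ‖riemannZeta (((1 - b : ℝ) : ℂ) + t * I)‖
          ≤ C1 * (2 + |t|) ^ (b - 1 / 2) * ‖riemannZeta ((b : ℂ) + t * I)‖ := h1
        _ ≤ C1 * (4 * t0 ^ (b - 1 / 2)) * t0 ^ (ε / 8) := by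
            refine mul_le_mul ?_ h2 (norm_nonneg _) (by positivity)
            exact mul_le_mul_of_nonneg_left h3 (by linarith)
        _ = (4 * C1) * (t0 ^ (b - 1 / 2) * t0 ^ (ε / 8)) := by ring
        _ ≤ t0 ^ (ε / 8) * (t0 ^ (b - 1 / 2) * t0 ^ (ε / 8)) :=
            mul_le_mul_of_nonneg_right h6 (by positivity)
        _ = t0 ^ (b - 1 / 2 + ε / 4) := by
            rw [← Real.rpow_add htp, ← Real.rpow_add htp]
            congr 1
            ring
        _ ≤ t0 ^ (b - 1 / 2 + ε / 4) * Real.exp ((t - t0) ^ 2) :=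
            le_mul_of_one_le_right (Real.rpow_nonneg htp.le _) (hexp1 _)
    · have h1 := hfar (((1 - b : ℝ) : ℂ) + t * I) (by simp) (by simp; linarith) (by simpa using h)
      have h2 : (((1 - b : ℝ) : ℂ) + t * I).im = t := by simp
      rw [h2] at h1
      refine h1.trans ?_
      exact le_mul_of_one_le_left (Real.exp_pos _).le (Real.one_le_rpow ht6 (by linarith))
  have hfin := hLT riemannZeta (1 - b) b (t0 ^ (b - 1 / 2 + ε / 4)) (t0 ^ (ε / 8)) t0 σ (by linarith)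
    (Real.rpow_pos_of_pos htp _) (Real.rpow_pos_of_pos htp _)
    (fun s h1 h2 => differentiableAt_riemannZeta (by
      intro h
      rw [h, Complex.one_re] at h2
      linarith)) ⟨C2, 3, hCr⟩ hMa hMb (by linarith) hbσ.le
  refine hfin.trans ?_
  rw [hba, ← Real.rpow_mul htp.le, ← Real.rpow_mul htp.le]
  have h1 : Real.exp ((2 * b - 1) ^ 2) ≤ t0 ^ (ε / 8) := by
    refine le_trans ?_ (hT4 t0 ht4)
    exact Real.exp_le_exp.mpr (by nlinarith)
  have hlam : (b - σ) / (2 * b - 1) ≤ 1 := by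
    rw [div_le_one hba0]
    linarith
  have hlam0 : 0 ≤ (b - σ) / (2 * b - 1) := div_nonneg (by linarith) hba0.le
  have hne : (2 * b - 1) ≠ 0 := hba0.ne'
  have hmu : (σ - (1 - b)) / (2 * b - 1) = 1 - (b - σ) / (2 * b - 1) := by
    rw [eq_sub_iff_add_eq, ← add_div, div_eq_one_iff_eq hne]
    ring
  have hhalf : (b - 1 / 2) * ((b - σ) / (2 * b - 1)) = (b - σ) / 2 := by
    rw [mul_div_assoc', div_eq_iff hne]
    ring
  calc Real.exp ((2 * b - 1) ^ 2) * t0 ^ ((b - 1 / 2 + ε / 4) * ((b - σ) / (2 * b - 1))) *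
        t0 ^ (ε / 8 * ((σ - (1 - b)) / (2 * b - 1)))
      ≤ t0 ^ (ε / 8) * t0 ^ ((b - 1 / 2 + ε / 4) * ((b - σ) / (2 * b - 1))) *
        t0 ^ (ε / 8 * ((σ - (1 - b)) / (2 * b - 1))) := by
        refine mul_le_mul_of_nonneg_right (mul_le_mul_of_nonneg_right h1 ?_) ?_
        · exact Real.rpow_nonneg htp.le _
        · exact Real.rpow_nonneg htp.le _
    _ = t0 ^ (ε / 8 + (b - 1 / 2 + ε / 4) * ((b - σ) / (2 * b - 1)) +
        ε / 8 * ((σ - (1 - b)) / (2 * b - 1))) := by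
        rw [Real.rpow_add htp, Real.rpow_add htp]
    _ ≤ t0 ^ (max (θ - σ) 0 / 2 + ε) := by
        refine Real.rpow_le_rpow_of_exponent_le ht6 ?_
        rw [hmu]
        have e1 : (b - 1 / 2 + ε / 4) * ((b - σ) / (2 * b - 1)) =
            (b - σ) / 2 + ε / 4 * ((b - σ) / (2 * b - 1)) := by
          rw [add_mul, hhalf]
        rw [e1]
        have e2 : ε / 4 * ((b - σ) / (2 * b - 1)) ≤ ε / 4 * 1 :=
          mul_le_mul_of_nonneg_left hlam (by linarith)
        have e3 : ε / 8 * (1 - (b - σ) / (2 * b - 1)) ≤ ε / 8 * 1 :=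
          mul_le_mul_of_nonneg_left (by linarith) (by linarith)
        linarith

end Pool.Agent.QZ
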